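import Mathlib
import Pool.Agent.Y263.GF.Alg
import Pool.Agent.Q171.Cor.Loc

/-!
# A local corona theorem on the ball: the closed algebra of the functions of one variable and one arbitrary function at each boundary point

`B` is the unit ball of `ℂ^n`. Let `F_1, …, F_N ∈ H^∞(B)` have no common zero in `B`, and suppose that
for each boundary point `p` there are an arbitrary function `G ∈ H^∞(B)` and a subset `S` of the indices
such that `∑_{j ∈ S} |F_j| ≥ c > 0` near `p` and such that, for `j ∈ S`, `F_j` is asymptotic at `p` to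
an element of the uniformly closed algebra generated by `G` and all functions `f ∘ ψ`, where
`f ∈ H^∞(𝔻)` and `ψ : B → 𝔻` runs through the holomorphic maps with affine fibres (for instance the
linear forms of norm `≤ 1` and the linear fractional maps from `B` to `𝔻`). Then the equation
`∑ F_j g_j = 1` has bounded solutions.

In particular: the corona theorem holds for all data in the uniformly closed algebra generated by all
functions `f ∘ ψ` and by one arbitrary function `G` (`algebra`).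

The proof joins parts of the starting library: `Pool.Agent.Y263.GF.{tup_SF, lin_SF}` (the case of
tuples `f_1 ∘ ψ_1, …, f_K ∘ ψ_K, G`) and `Pool.Agent.Y263.LF.local_main` (characters over `p`).
-/

set_option autoImplicit false

open Metric Set Filter Topology

namespace Pool.Agent.Results.MP_ca0fc2_an.AffineFibreAlgebra

/-- `ℂ^n` with the Euclidean norm. -/
abbrev V (n : ℕ) := EuclideanSpace ℂ (Fin n)

/-- `f` is a bounded holomorphic function on the unit ball. -/
def Hinf {n : ℕ} (f : V n → ℂ) : Prop :=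
  DifferentiableOn ℂ f (ball 0 1) ∧ ∃ M : ℝ, ∀ z ∈ ball (0 : V n) 1, ‖f z‖ ≤ M

/-- `ψ` is a holomorphic map from the unit ball to the unit disc, and the fibre of `ψ` through any
point `z` is the part in the ball of the affine subspace `z + ker ψ'(z)`. -/
def HasAffineFibres {n : ℕ} (ψ : V n → ℂ) : Prop :=
  DifferentiableOn ℂ ψ (ball 0 1) ∧ (∀ z ∈ ball (0 : V n) 1, ‖ψ z‖ < 1) ∧
    ∀ z ∈ ball (0 : V n) 1, ∀ z' ∈ ball (0 : V n) 1, ψ z' = ψ z ↔ fderiv ℂ ψ z (z' - z) = 0

/-- The functions `f ∘ ψ`, `f` bounded and holomorphic on the disc, `ψ : B → 𝔻` with affine fibres. -/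
def OneVariable (n : ℕ) : Set (V n → ℂ) :=
  {h | ∃ (f : ℂ → ℂ) (ψ : V n → ℂ), DifferentiableOn ℂ f (ball 0 1) ∧
    (∃ C : ℝ, ∀ w ∈ ball (0 : ℂ) 1, ‖f w‖ ≤ C) ∧ HasAffineFibres ψ ∧ h = fun z => f (ψ z)}

/-- The elements of `H^∞(B)` which are uniform limits on the ball of polynomials in functions of
the set `R`. -/
def ClosedAlgebra {n : ℕ} (R : Set (V n → ℂ)) : Set (V n → ℂ) :=
  {f | Hinf f ∧ ∀ ε : ℝ, 0 < ε → ∃ g ∈ Algebra.adjoin ℂ R, ∀ z ∈ ball (0 : V n) 1, ‖f z - g z‖ ≤ ε}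

/-- The equation `∑ F_j g_j = 1` has solutions in `H^∞(B)`. -/
def Solvable {n N : ℕ} (F : Fin N → V n → ℂ) : Prop :=
  ∃ g : Fin N → V n → ℂ, (∀ j, Hinf (g j)) ∧ ∀ z ∈ ball (0 : V n) 1, ∑ j, F j z * g j z = 1

theorem oneVariable_hinf {n : ℕ} {h : V n → ℂ} (hh : h ∈ OneVariable n) : Hinf h := by
  obtain ⟨f, ψ, hf, ⟨C, hC⟩, hψ, rfl⟩ := hh
  exact ⟨hf.comp hψ.1 (fun z hz => mem_ball_zero_iff.2 (hψ.2.1 z hz)), C,
    fun z hz => hC _ (mem_ball_zero_iff.2 (hψ.2.1 z hz))⟩

theorem oneVariable_SF {n : ℕ} : OneVariable n ⊆ Pool.Agent.Y263.GF.SF (V n) := by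
  rintro h ⟨f, ψ, hf, hC, hψ, rfl⟩
  exact ⟨f, ψ, hf, hC, ⟨⟨hψ.1, hψ.2.2⟩, hψ.2.1⟩, fun z _ => rfl⟩

open Pool.Agent.Q171.Cor (toH ev_toH closed_mem)
open Pool.Agent.Y263.LF (Hb evH evH_le CA SR)

theorem closed_CA {n : ℕ} {G : V n → ℂ} (hG : Hinf G) {a : V n → ℂ}
    (ha : a ∈ ClosedAlgebra ({G} ∪ OneVariable n)) :
    toH a ha.1 ∈ CA (Pool.Agent.Y263.GF.SF (V n)) (toH G hG) := by
  have h1 := closed_mem (R := {G} ∪ OneVariable n) (by
    rintro h (h1 | h1)
    · rw [h1]; exact hG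
    · exact oneVariable_hinf h1) (f := a) ha
  have h2 : (Algebra.adjoin ℂ {b : Hb (V n) | ∃ h ∈ ({G} ∪ OneVariable n : Set (V n → ℂ)),
      ∀ z, evH z b = h z}) ≤ Algebra.adjoin ℂ (insert (toH G hG)
        (SR (Pool.Agent.Y263.GF.SF (V n)))) := by
    refine Algebra.adjoin_mono ?_
    rintro u ⟨h, h3 | h3, h4⟩
    · left
      rw [h3] at h4
      exact (Pool.Agent.Q171.Cor.toH_eq h4).symm
    · right
      exact ⟨h, oneVariable_SF h3, h4⟩
  exact Subalgebra.topologicalClosure_mono h2 h1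

/-- **Local corona theorem** for the functions of one variable and one arbitrary function at each
boundary point. -/
theorem result (n N : ℕ) (F : Fin N → V n → ℂ) (hF : ∀ j, Hinf (F j))
    (h0 : ∀ z ∈ ball (0 : V n) 1, ∃ j, F j z ≠ 0)
    (h1 : ∀ p : V n, ‖p‖ = 1 → ∃ (G : V n → ℂ) (S : Finset (Fin N)) (a : Fin N → V n → ℂ) (c : ℝ),
      Hinf G ∧ 0 < c ∧ (∀ᶠ z in 𝓝[ball 0 1] p, c ≤ ∑ j ∈ S, ‖F j z‖) ∧
      ∀ j ∈ S, a j ∈ ClosedAlgebra ({G} ∪ OneVariable n) ∧
        Tendsto (fun z => F j z - a j z) (𝓝[ball 0 1] p) (𝓝 0)) :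
    Solvable F := by
  classical
  obtain ⟨g, hg⟩ := Pool.Agent.Y263.LF.local_main (X := V n) (𝓡 := Pool.Agent.Y263.GF.SF (V n))
    Pool.Agent.Y263.GF.tup_SF (fun u G => Pool.Agent.Y263.GF.lin_SF u G)
    (fun j => toH (F j) (hF j)) (by
      intro z
      obtain ⟨j, hj⟩ := h0 z z.2
      exact ⟨j, hj⟩) (by
      intro p hp
      obtain ⟨G, S, a, c, hG, hc, hlow, hS⟩ := h1 p hp
      have hT : Tendsto (Subtype.val : ball (0 : V n) 1 → V n)
          (comap (Subtype.val : ball (0 : V n) 1 → V n) (𝓝 p)) (𝓝[ball 0 1] p) :=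
        tendsto_nhdsWithin_iff.2 ⟨tendsto_comap, Eventually.of_forall (fun z => z.2)⟩
      refine ⟨toH G hG, S, fun j => if hj : j ∈ S then toH (a j) (hS j hj).1.1 else 0, c, hc, ?_,
        fun j hj => ?_⟩
      · exact hT.eventually hlow
      · simp only [dif_pos hj]
        exact ⟨closed_CA hG (hS j hj).1, (hS j hj).2.comp hT⟩)
  choose g' hg' hg'2 using fun j => (g j).2
  refine ⟨g', fun j => ⟨hg' j, ‖g j‖, fun z hz => ?_⟩, fun z hz => ?_⟩
  · have h1 := evH_le ⟨z, hz⟩ (g j)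
    have h2 : evH ⟨z, hz⟩ (g j) = g' j z := hg'2 j ⟨z, hz⟩
    rwa [h2] at h1
  · have h1 := congrArg (fun a => evH ⟨z, hz⟩ a) hg
    simp only [map_sum, map_mul, map_one] at h1
    rw [← h1]
    refine Finset.sum_congr rfl (fun j _ => ?_)
    have h2 : evH ⟨z, hz⟩ (g j) = g' j z := hg'2 j ⟨z, hz⟩
    rw [h2]
    rfl

/-- **Corona theorem for the closed algebra** generated by the functions of one variable and one
arbitrary function. -/
theorem algebra (n N : ℕ) (F : Fin N → V n → ℂ) (G : V n → ℂ) (hG : Hinf G)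
    (hF : ∀ j, F j ∈ ClosedAlgebra ({G} ∪ OneVariable n)) (δ : ℝ) (hδ : 0 < δ)
    (hlow : ∀ z ∈ ball (0 : V n) 1, δ ≤ ∑ j, ‖F j z‖) : Solvable F := by
  refine result n N F (fun j => (hF j).1) (fun z hz => ?_) (fun p _ => ?_)
  · by_contra hno
    push Not at hno
    have := hlow z hz
    simp only [hno, norm_zero, Finset.sum_const_zero] at this
    linarith
  · refine ⟨G, Finset.univ, F, δ, hG, hδ, ?_, fun j _ => ⟨hF j, ?_⟩⟩
    · filter_upwards [self_mem_nhdsWithin] with z hz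
      exact hlow z hz
    · simp only [sub_self]
      exact tendsto_const_nhds

end Pool.Agent.Results.MP_ca0fc2_an.AffineFibreAlgebra
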