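import Mathlib
import Pool.Agent.H788R3.Cor3.Supp

/-!
# Localisation of the corona problem on domains with holomorphic retractions onto their slices

Let `D ⊆ ℂ × ℂⁿ` be a domain fibred over a simply connected plane domain `U ≠ ℂ`, with a continuous
family of holomorphic retractions of `D` onto its slices `{c} × D_c`, `c ∈ U`. Examples are the domains
`|z|² + ∑ exp (2 u_j (z)) |y_j|² < 1` with convex `u_j` of class `C¹` (among them strictly pseudoconvex
domains with smooth boundary which are not convex and not biholomorphic to the ball), and the domains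
with complete Reinhardt fibres moving along functions with holomorphic supports.

For bounded holomorphic functions `f_1, …, f_N` of the first coordinate and arbitrary bounded
holomorphic functions `G_1, …, G_M` on `D`: if `∑ G_m k_m = 1` has a bounded solution on the part of `D`
where all `|f_i| < ε`, then `∑ f_i g_i + ∑ G_m h_m = 1` has a solution on `D`, with a bound that depends
only on `N`, `M`, `ε` and the bound of the local solution, not on the domain nor on the dimension.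

The proof is in the starting library (`Pool.Agent.H788R3.Cor3.{siegel3, base_thm3}`), as the main step
of the starting hand-in `CoordinateFunctions`; the starting hand-in `ConvexHartogs` is the case
`M = 1` with `|G| ≥ 1/K` where all `|f_i| < ε`.
-/

set_option autoImplicit false

open Set Metric

namespace Pool.Agent.Results.MP_ca0fc2_an.HartogsLocalisation

/-- `D ⊆ ℂ × ℂⁿ` is an open set over `U`, and `Λ c`, `c ∈ U`, is a family of holomorphic retractions of
`D` onto its slices over `c` which is continuous in `c` and the first coordinate. -/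
structure Retractions {n : ℕ} (U : Set ℂ) (D : Set (ℂ × (Fin n → ℂ)))
    (Λ : ℂ → ℂ × (Fin n → ℂ) → (Fin n → ℂ)) : Prop where
  isOpen : IsOpen D
  fibred : ∀ p ∈ D, p.1 ∈ U
  maps : ∀ c ∈ U, ∀ p ∈ D, (c, Λ c p) ∈ D
  retraction : ∀ (c : ℂ) (y : Fin n → ℂ), (c, y) ∈ D → Λ c (c, y) = y
  holomorphic : ∀ c ∈ U, ∀ p ∈ D, DifferentiableAt ℂ (Λ c) p
  continuous : ∀ y : Fin n → ℂ,
    ContinuousOn (fun q : ℂ × ℂ => Λ q.1 (q.2, y)) {q | q.1 ∈ U ∧ (q.2, y) ∈ D}

/-- The equation `∑ F_j g_j = 1` has a solution with `g_j` holomorphic on `Ω` and bounded by `C`. -/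
def Solvable {n : ℕ} (Ω : Set (ℂ × (Fin n → ℂ))) {J : Type} [Fintype J]
    (F : J → ℂ × (Fin n → ℂ) → ℂ) (C : ℝ) : Prop :=
  ∃ g : J → ℂ × (Fin n → ℂ) → ℂ, (∀ j, DifferentiableOn ℂ (g j) Ω) ∧
    (∀ j, ∀ p ∈ Ω, ‖g j p‖ ≤ C) ∧ ∀ p ∈ Ω, ∑ j, F j p * g j p = 1

/-- Localisation on `D` (over `U`) for `N` functions of the first coordinate and `M` arbitrary
functions, with level `ε`, local bound `K` and global bound `C`. -/
def Localises (N M : ℕ) (ε K C : ℝ) {n : ℕ} (U : Set ℂ) (D : Set (ℂ × (Fin n → ℂ))) : Prop :=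
  ∀ (f : Fin N → ℂ → ℂ) (G : Fin M → ℂ × (Fin n → ℂ) → ℂ),
    (∀ i, DifferentiableOn ℂ (f i) U ∧ ∀ z ∈ U, ‖f i z‖ ≤ 1) →
    (∀ m, DifferentiableOn ℂ (G m) D ∧ ∀ p ∈ D, ‖G m p‖ ≤ 1) →
    Solvable {p | p ∈ D ∧ ∀ i, ‖f i p.1‖ < ε} G K →
    Solvable D (Sum.elim (fun (i : Fin N) p => f i p.1) G) C

/-- The domain `|z|² + ∑ exp (2 u_j (z)) |y_j|² < 1`. -/
def Du {n : ℕ} (u : Fin n → ℂ → ℝ) : Set (ℂ × (Fin n → ℂ)) :=
  {p | ‖p.1‖ ^ 2 + ∑ j, Real.exp (2 * u j p.1) * ‖p.2 j‖ ^ 2 < 1}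

open Pool.Agent.H788R3.Cor2 Pool.Agent.H788R3.Cor3

/-- **Localisation** on domains with retractions onto the slices, and in particular on the domains
`|z|² + ∑ exp (2 u_j (z)) |y_j|² < 1` with convex `u_j`. -/
theorem result (N M : ℕ) (ε K : ℝ) (hε : 0 < ε) : ∃ C : ℝ,
    (∀ (n : ℕ) (U : Set ℂ) (D : Set (ℂ × (Fin n → ℂ))) (Λ : ℂ → ℂ × (Fin n → ℂ) → (Fin n → ℂ)),
      IsOpen U → IsSimplyConnected U → U ≠ univ → Retractions U D Λ → Localises N M ε K C U D) ∧
    ∀ (n : ℕ) (u : Fin n → ℂ → ℝ),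
      (∀ j, ConvexOn ℝ (ball 0 1) (u j)) → (∀ j, ContDiffOn ℝ 1 (u j) (ball 0 1)) →
      Localises N M ε K C (ball 0 1) (Du u) := by
  obtain ⟨C, hC⟩ := siegel3 N M (ε := min ε 1) (K := max K 0) (lt_min hε one_pos)
    (min_le_right _ _) (le_max_right _ _)
  have h1 : ∀ (n : ℕ) (U : Set ℂ) (D : Set (ℂ × (Fin n → ℂ)))
      (Λ : ℂ → ℂ × (Fin n → ℂ) → (Fin n → ℂ)),
      IsOpen U → IsSimplyConnected U → U ≠ univ → Retractions U D Λ → Localises N M ε K C U D := by
    intro n U D Λ hU hUc hne hR f G hf hG ⟨k, hk1, hk2, hk3⟩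
    have hne' : U.Nonempty := by
      have : SimplyConnectedSpace U := hUc
      obtain ⟨x⟩ := (inferInstance : Nonempty U)
      exact ⟨x.1, x.2⟩
    have hsub : {q : ℂ × (Fin n → ℂ) | q ∈ D ∧ ∀ i, ‖f i q.1‖ < min ε 1} ⊆
        {p | p ∈ D ∧ ∀ i, ‖f i p.1‖ < ε} :=
      fun q hq => ⟨hq.1, fun i => (hq.2 i).trans_le (min_le_left _ _)⟩
    obtain ⟨g, g0, e1, e2, e3, e4, e5⟩ := base_thm3 (lt_min hε one_pos) hC hU hUc hne hne'
      (Λ := Λ) ⟨hR.isOpen, hR.fibred, hR.maps, hR.retraction, hR.holomorphic, hR.continuous⟩ f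
      (fun i => (hf i).1) (fun i => (hf i).2) G (fun m => (hG m).1) (fun m => (hG m).2) k
      (fun m => (hk1 m).mono hsub)
      (fun m q hq hi => (hk2 m q (hsub ⟨hq, hi⟩)).trans (le_max_left _ _))
      (fun q hq hi => hk3 q (hsub ⟨hq, hi⟩))
    refine ⟨Sum.elim g g0, ?_, ?_, fun p hp => ?_⟩
    · rintro (i | m)
      · exact e1 i
      · exact e2 m
    · rintro (i | m)
      · exact e3 i
      · exact e4 m
    · rw [Fintype.sum_sum_type]
      exact e5 p hp
  refine ⟨C, h1, ?_⟩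
  intro n u hu hud
  have h3 : Du u = Dom (ball 0 1) (fun j z => u j z + -(1 / 2) * Real.log (1 - ‖z‖ ^ 2))
      {x | ∑ j, x j ^ 2 < 1} := Pool.Agent.H788R3.Cor2.Du_eq u
  have hφ : ∀ j, ConvexOn ℝ (ball (0 : ℂ) 1)
      (fun z => u j z + -(1 / 2) * Real.log (1 - ‖z‖ ^ 2)) := fun j => (hu j).add lg_convex
  have hd : ∀ j, ContDiffOn ℝ 1 (fun z : ℂ => u j z + -(1 / 2) * Real.log (1 - ‖z‖ ^ 2))
      (ball (0 : ℂ) 1) := fun j => (hud j).add lg_diff
  choose A hA1 hA2 hA3 hA4 using fun j => conv_supp isOpen_ball (hφ j) (hd j)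
  have hRo : IsOpen {x : Fin n → ℝ | ∑ j, x j ^ 2 < 1} :=
    isOpen_lt (by fun_prop) continuous_const
  have hret := retr_dom isOpen_ball (fun j => (hd j).continuousOn) hRo
    (fun x hx y hy => by
      have hx' : ∑ j, x j ^ 2 < 1 := hx
      have hle : ∑ j, y j ^ 2 ≤ ∑ j, x j ^ 2 :=
        Finset.sum_le_sum (fun j _ => pow_le_pow_left₀ (hy j).1 (hy j).2 2)
      exact lt_of_le_of_lt hle hx') hA1 hA2 hA3 hA4
  rw [h3]
  refine h1 n (ball 0 1) _ (LL A) isOpen_ball (conv_sc (convex_ball 0 1) ⟨0, mem_ball_self one_pos⟩)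
    ?_ ⟨hret.op, hret.sub, hret.mem, hret.self, hret.diff, hret.cont⟩
  intro h
  have h4 : (2 : ℂ) ∈ ball (0 : ℂ) 1 := by
    rw [h]
    trivial
  rw [mem_ball_zero_iff] at h4
  norm_num at h4

end Pool.Agent.Results.MP_ca0fc2_an.HartogsLocalisation
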