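import Mathlib
import Pool.Agent.W732.Cor.All
import Pool.Agent.Q171.Cor.Loc

/-!
# A local corona theorem on the ball: scaled continuous functions and one arbitrary function at each boundary point

`B` is the unit ball of `ℂ^m`. A bounded holomorphic function `f` on `B` is scaled continuous at the
boundary point `p` if the functions `f ∘ mv p a`, `|a| < 1`, are equicontinuous at the points of the
sphere orthogonal to `p` (`mv p a` are the automorphisms of `B` which translate the complex geodesic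
through `0` and `p`). Examples are all bounded holomorphic functions of `⟨p, z⟩` and, more generally,
all functions `H (⟨p, z⟩ p + t (z - ⟨p, z⟩ p))` with `H ∈ H^∞(B)` arbitrary and `0 ≤ t < 1`.

`result`, first part (local theorem): let `f_1, …, f_N ∈ H^∞(B)` have no common zero in `B`, and
suppose that for each boundary point `p` there are an arbitrary function `G ∈ H^∞(B)` and a subset `S`
of the indices such that `∑_{j ∈ S} |f_j| ≥ c > 0` near `p` and such that, for `j ∈ S`, `f_j` is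
asymptotic at `p` to an element of the uniformly closed algebra generated by `G` and all functions
which are asymptotic at `p` to scaled continuous ones. Then `∑ f_j g_j = 1` has bounded solutions.

Second part: in particular the corona theorem holds for all data in the uniformly closed algebra
generated by the ball algebra, by all functions `H (⟨a, z⟩ a + t (z - ⟨a, z⟩ a))`, `|a| = 1`,
`0 ≤ t < 1`, `H ∈ H^∞(B)` (for `t = 0`: all bounded holomorphic functions of one variable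
`⟨a, z⟩`, for all directions `a`), and by one arbitrary function `G ∈ H^∞(B)`.

Parts of the proof from the starting library: `Pool.Agent.W732.Cor.t_fin` (the case when each `f_j`,
`j ∈ S`, is itself asymptotically scaled continuous at `p`, up to one arbitrary member of the data),
`Pool.Agent.Y263.LF.Hinf` (the Banach algebra `H^∞(B)`). New here
(`Pool.Agent.Q171.Cor.{Char, Loc}`): the closed algebras, which may be different at each boundary
point, via characters over `p`.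
-/

set_option autoImplicit false

open Metric Set Filter Topology

namespace Pool.Agent.Results.MP_ca0fc2_an.ScaledContinuity

/-- `ℂ^m` with the Euclidean norm. -/
abbrev V (m : ℕ) := EuclideanSpace ℂ (Fin m)

/-- `f` is a bounded holomorphic function on the unit ball. -/
def Hinf {m : ℕ} (f : V m → ℂ) : Prop :=
  DifferentiableOn ℂ f (ball 0 1) ∧ ∃ M : ℝ, ∀ z ∈ ball (0 : V m) 1, ‖f z‖ ≤ M

/-- The automorphisms of the ball (`‖p‖ = 1`, `|a| < 1`) which translate the complex geodesic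
through `0` and `p`: `⟨p, mv p a z⟩ = (⟨p, z⟩ + a) / (1 + conj a ⟨p, z⟩)`. -/
noncomputable def mv {m : ℕ} (p : V m) (a : ℂ) (z : V m) : V m :=
  (1 / (1 + starRingEnd ℂ a * inner ℂ p z)) •
    (((inner ℂ p z : ℂ) + a) • p + ((√(1 - ‖a‖ ^ 2) : ℝ) : ℂ) • (z - (inner ℂ p z : ℂ) • p))

/-- The maps `z ↦ ⟨p, z⟩ p + t (z - ⟨p, z⟩ p)`. -/
noncomputable def tau {m : ℕ} (p : V m) (t : ℝ) (z : V m) : V m :=
  (inner ℂ p z : ℂ) • p + (t : ℂ) • (z - (inner ℂ p z : ℂ) • p)

/-- Scaled continuity at `p`: the functions `f ∘ mv p a`, `|a| < 1`, are equicontinuous at all points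
`q` of the sphere which are orthogonal to `p`. -/
def ScaledContinuous {m : ℕ} (p : V m) (f : V m → ℂ) : Prop :=
  ∀ q : V m, ‖q‖ = 1 → (inner ℂ p q : ℂ) = 0 → ∀ ε : ℝ, 0 < ε → ∃ r : ℝ, 0 < r ∧
    ∀ a ∈ ball (0 : ℂ) 1, ∀ z ∈ ball (0 : V m) 1, ∀ w ∈ ball (0 : V m) 1,
      ‖z - q‖ < r → ‖w - q‖ < r → ‖f (mv p a z) - f (mv p a w)‖ ≤ ε

/-- The bounded holomorphic functions which are asymptotic at `p` to scaled continuous ones. -/
def Nice {m : ℕ} (p : V m) : Set (V m → ℂ) :=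
  {f | Hinf f ∧ ∃ h : V m → ℂ, Hinf h ∧ ScaledContinuous p h ∧
    Tendsto (fun z => f z - h z) (𝓝[ball 0 1] p) (𝓝 0)}

/-- The elements of `H^∞(B)` which are uniform limits on the ball of polynomials in functions of
the set `R`. -/
def ClosedAlgebra {m : ℕ} (R : Set (V m → ℂ)) : Set (V m → ℂ) :=
  {f | Hinf f ∧ ∀ ε : ℝ, 0 < ε → ∃ g ∈ Algebra.adjoin ℂ R, ∀ z ∈ ball (0 : V m) 1, ‖f z - g z‖ ≤ ε}

/-- The equation `∑ f_j g_j = 1` has solutions in `H^∞(B)`. -/
def Solvable {m N : ℕ} (f : Fin N → V m → ℂ) : Prop :=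
  ∃ g : Fin N → V m → ℂ, (∀ j, Hinf (g j)) ∧ ∀ z ∈ ball (0 : V m) 1, ∑ j, f j z * g j z = 1

/-- The ball algebra, and the functions `H (⟨a, z⟩ a + t (z - ⟨a, z⟩ a))`, `H ∈ H^∞(B)`, `t < 1`. -/
def Generators (m : ℕ) : Set (V m → ℂ) :=
  {f | ContinuousOn f (closedBall 0 1) ∧ DifferentiableOn ℂ f (ball 0 1)} ∪
  {f | ∃ (a : V m) (t : ℝ) (H : V m → ℂ), ‖a‖ = 1 ∧ 0 ≤ t ∧ t < 1 ∧ Hinf H ∧
    f = fun z => H (tau a t z)}

theorem local_theorem (m N : ℕ) (f : Fin N → V m → ℂ) (hf : ∀ j, Hinf (f j))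
    (h0 : ∀ z ∈ ball (0 : V m) 1, ∃ j, f j z ≠ 0)
    (h1 : ∀ p : V m, ‖p‖ = 1 → ∃ (G : V m → ℂ) (S : Finset (Fin N)) (a : Fin N → V m → ℂ) (c : ℝ),
      Hinf G ∧ 0 < c ∧ (∀ᶠ z in 𝓝[ball 0 1] p, c ≤ ∑ j ∈ S, ‖f j z‖) ∧
      ∀ j ∈ S, a j ∈ ClosedAlgebra ({G} ∪ Nice p) ∧
        Tendsto (fun z => f j z - a j z) (𝓝[ball 0 1] p) (𝓝 0)) : Solvable f :=
  Pool.Agent.Q171.Cor.local_sc Pool.Agent.W732.Cor.t_fin f hf h0 h1

theorem generators_nice (m : ℕ) (p : V m) (hp : ‖p‖ = 1) : Generators m ⊆ Nice p := by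
  rintro f (⟨h1, h2⟩ | ⟨a, t, H, ha, ht0, ht1, ⟨hH, M, hM⟩, rfl⟩)
  · obtain ⟨h3, h4, h5⟩ := Pool.Agent.W732.Cor.AS.cont Pool.Agent.W732.Cor.t_sc1 h2 h1
    obtain ⟨h, h6, h7, h8, h9⟩ := h5 p hp
    exact ⟨⟨h3, h4⟩, h, ⟨h6, h7⟩, h8, h9⟩
  · obtain ⟨h3, h4, h5⟩ := Pool.Agent.W732.Cor.AS.tau Pool.Agent.W732.Cor.t_sc1
      Pool.Agent.W732.Cor.t_sc2 ha ht0 ht1 hH hM
    obtain ⟨h, h6, h7, h8, h9⟩ := h5 p hp
    exact ⟨⟨h3, h4⟩, h, ⟨h6, h7⟩, h8, h9⟩

/-- **Local corona theorem** (first part) and its consequence for the closed algebra generated by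
the ball algebra, the functions `H (⟨a, z⟩ a + t (z - ⟨a, z⟩ a))`, and one arbitrary function. -/
theorem result (m N : ℕ) (f : Fin N → V m → ℂ) (hf : ∀ j, Hinf (f j)) :
    ((∀ z ∈ ball (0 : V m) 1, ∃ j, f j z ≠ 0) →
      (∀ p : V m, ‖p‖ = 1 → ∃ (G : V m → ℂ) (S : Finset (Fin N)) (a : Fin N → V m → ℂ) (c : ℝ),
        Hinf G ∧ 0 < c ∧ (∀ᶠ z in 𝓝[ball 0 1] p, c ≤ ∑ j ∈ S, ‖f j z‖) ∧
        ∀ j ∈ S, a j ∈ ClosedAlgebra ({G} ∪ Nice p) ∧
          Tendsto (fun z => f j z - a j z) (𝓝[ball 0 1] p) (𝓝 0)) → Solvable f) ∧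
    ((∃ δ : ℝ, 0 < δ ∧ ∀ z ∈ ball (0 : V m) 1, δ ≤ ∑ j, ‖f j z‖) →
      (∃ G : V m → ℂ, Hinf G ∧ ∀ j, f j ∈ ClosedAlgebra ({G} ∪ Generators m)) →
      Solvable f) := by
  refine ⟨local_theorem m N f hf, ?_⟩
  rintro ⟨δ, hδ, hlow⟩ ⟨G, hG, hfG⟩
  refine local_theorem m N f hf (fun z hz => ?_) (fun p hp => ?_)
  · by_contra hno
    push Not at hno
    have := hlow z hz
    simp only [hno, norm_zero, Finset.sum_const_zero] at this
    linarith
  · refine ⟨G, Finset.univ, f, δ, hG, hδ, ?_, fun j _ => ⟨⟨hf j, fun ε hε => ?_⟩, ?_⟩⟩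
    · filter_upwards [self_mem_nhdsWithin] with z hz
      exact hlow z hz
    · obtain ⟨g, hg, hfg⟩ := (hfG j).2 ε hε
      exact ⟨g, Algebra.adjoin_mono (Set.union_subset_union_right _ (generators_nice m p hp)) hg,
        hfg⟩
    · simp only [sub_self]
      exact tendsto_const_nhds

end Pool.Agent.Results.MP_ca0fc2_an.ScaledContinuity
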