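import Mathlib
import Pool.Agent.W732.Cor.All
import Pool.Agent.H788R3.Cor2.Spc

/-!
# Slice localisation of the corona problem on Hartogs domains

`D ⊆ ℂ × ℂⁿ` is a domain over the unit disc with a continuous family of holomorphic retractions `Λ_c`
onto its slices `D_c`, `|c| < 1`, which contract towards `y = 0` like `(1 - d(c, z)²)^(1/2)`, `d` the
pseudohyperbolic distance. Examples are the ball and the domains
`|z|² + ∑ exp (2 u_j (z)) |y_j|² < 1` with convex `u_j` of class `C¹`.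

Let `F_1, …, F_N` be arbitrary bounded holomorphic functions on `D`. If for each `a` in the disc the
equation `∑ F_i g_i + (z - a) / (1 - conj a z) g_0 = 1` has a solution with a bound independent of `a`
(a condition which only concerns the functions `F_i` near the slice over `a`), then `∑ F_i h_i = 1`
has a solution, with a bound that depends only on `N` and on the bound of the local solutions, not on
the domain nor on the dimension.

The general theorem (`Pool.Agent.W732.Cor.t_disc`) is in the starting library, where it was used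
only for the ball. New here: the domains `|z|² + ∑ exp (2 u_j (z)) |y_j|² < 1`.
-/

set_option autoImplicit false

open Set Metric

namespace Pool.Agent.Results.MP_ca0fc2_an.SliceLocalisation

/-- The factor `√((1 - |c|²)(1 - |z|²)) / |1 - conj c z|`. -/
noncomputable def contraction (c z : ℂ) : ℝ :=
  √((1 - ‖c‖ ^ 2) * (1 - ‖z‖ ^ 2)) / ‖1 - starRingEnd ℂ c * z‖

/-- `D ⊆ ℂ × ℂⁿ` is an open set over the unit disc which contains the disc, and `Λ c`, `|c| < 1`, is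
a family of holomorphic retractions of `D` onto its slices over `c`, continuous in `c` and the first
coordinate, which contract towards `y = 0` by the factor `contraction c z`. -/
structure Retractions {n : ℕ} (D : Set (ℂ × (Fin n → ℂ)))
    (Λ : ℂ → ℂ × (Fin n → ℂ) → (Fin n → ℂ)) : Prop where
  isOpen : IsOpen D
  fibred : ∀ p ∈ D, p.1 ∈ ball (0 : ℂ) 1
  zero : ∀ c ∈ ball (0 : ℂ) 1, (c, (0 : Fin n → ℂ)) ∈ D
  maps : ∀ c ∈ ball (0 : ℂ) 1, ∀ p ∈ D, (c, Λ c p) ∈ D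
  retraction : ∀ (c : ℂ) (y : Fin n → ℂ), (c, y) ∈ D → Λ c (c, y) = y
  holomorphic : ∀ c ∈ ball (0 : ℂ) 1, ∀ p ∈ D, DifferentiableAt ℂ (Λ c) p
  continuous : ∀ y : Fin n → ℂ,
    ContinuousOn (fun q : ℂ × ℂ => Λ q.1 (q.2, y)) {q | q.1 ∈ ball (0 : ℂ) 1 ∧ (q.2, y) ∈ D}
  contracts : ∀ c ∈ ball (0 : ℂ) 1, ∀ p ∈ D, ∀ t : ℂ, ‖t‖ * contraction c p.1 ≤ 1 →
    (c, t • Λ c p) ∈ D

/-- The equation `∑ F_j g_j = 1` has a solution with `g_j` holomorphic on `D` and bounded by `C`. -/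
def Solvable {n : ℕ} (D : Set (ℂ × (Fin n → ℂ))) {J : Type} [Fintype J]
    (F : J → ℂ × (Fin n → ℂ) → ℂ) (C : ℝ) : Prop :=
  ∃ g : J → ℂ × (Fin n → ℂ) → ℂ, (∀ j, DifferentiableOn ℂ (g j) D) ∧
    (∀ j, ∀ p ∈ D, ‖g j p‖ ≤ C) ∧ ∀ p ∈ D, ∑ j, F j p * g j p = 1

/-- Slice localisation on `D` for `N` arbitrary functions, with local bound `C` and global bound
`C'`: the additional function `none` is `(z - a) / (1 - conj a z)`. -/
def SliceLocal (N : ℕ) (C C' : ℝ) {n : ℕ} (D : Set (ℂ × (Fin n → ℂ))) : Prop :=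
  ∀ F : Fin N → ℂ × (Fin n → ℂ) → ℂ,
    (∀ i, DifferentiableOn ℂ (F i) D ∧ ∀ p ∈ D, ‖F i p‖ ≤ 1) →
    (∀ a ∈ ball (0 : ℂ) 1, Solvable D (fun (i : Option (Fin N)) p =>
      i.elim ((p.1 - a) / (1 - starRingEnd ℂ a * p.1)) (fun i => F i p)) C) →
    Solvable D F C'

/-- The domain `|z|² + ∑ exp (2 u_j (z)) |y_j|² < 1`. -/
def Du {n : ℕ} (u : Fin n → ℂ → ℝ) : Set (ℂ × (Fin n → ℂ)) :=
  {p | ‖p.1‖ ^ 2 + ∑ j, Real.exp (2 * u j p.1) * ‖p.2 j‖ ^ 2 < 1}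

open Pool.Agent.H788R3.Cor2

theorem one_sub_ne {c z : ℂ} (hc : ‖c‖ < 1) (hz : ‖z‖ < 1) : 1 - starRingEnd ℂ c * z ≠ 0 := by
  intro h
  have h1 : starRingEnd ℂ c * z = 1 := (sub_eq_zero.1 h).symm
  have h2 : ‖starRingEnd ℂ c * z‖ = 1 := by rw [h1, norm_one]
  rw [norm_mul, RCLike.norm_conj] at h2
  nlinarith [norm_nonneg c, norm_nonneg z]

/-- the contraction factor is the quotient of the Szego factor and of its bound -/
theorem szego {c z : ℂ} (hc : ‖c‖ < 1) (hz : ‖z‖ < 1) :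
    (1 - ‖c‖ ^ 2) / ‖1 - starRingEnd ℂ c * z‖ =
      contraction c z * Real.exp (-(1 / 2) * Real.log (1 - ‖z‖ ^ 2) -
        -(1 / 2) * Real.log (1 - ‖c‖ ^ 2)) := by
  have h1 : 0 < 1 - ‖c‖ ^ 2 := by nlinarith [norm_nonneg c]
  have h2 : 0 < 1 - ‖z‖ ^ 2 := by nlinarith [norm_nonneg z]
  have e : Real.exp (-(1 / 2) * Real.log (1 - ‖z‖ ^ 2) - -(1 / 2) * Real.log (1 - ‖c‖ ^ 2)) =
      √(1 - ‖c‖ ^ 2) / √(1 - ‖z‖ ^ 2) := by
    rw [Real.sqrt_eq_rpow, Real.sqrt_eq_rpow, Real.rpow_def_of_pos h1, Real.rpow_def_of_pos h2,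
      ← Real.exp_sub]
    congr 1
    ring
  rw [e, contraction, Real.sqrt_mul h1.le]
  have h3 : √(1 - ‖c‖ ^ 2) * √(1 - ‖c‖ ^ 2) = 1 - ‖c‖ ^ 2 := Real.mul_self_sqrt h1.le
  have h4 : √(1 - ‖z‖ ^ 2) ≠ 0 := (Real.sqrt_pos.2 h2).ne'
  have h5 : ‖1 - starRingEnd ℂ c * z‖ ≠ 0 := norm_ne_zero_iff.2 (one_sub_ne hc hz)
  field_simp
  nlinarith [h3]

theorem contraction_self {c : ℂ} (hc : ‖c‖ < 1) : contraction c c = 1 := by
  have h1 : 0 < 1 - ‖c‖ ^ 2 := by nlinarith [norm_nonneg c]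
  have h2 : ‖1 - starRingEnd ℂ c * c‖ = 1 - ‖c‖ ^ 2 := by
    have h3 : 1 - starRingEnd ℂ c * c = ((1 - ‖c‖ ^ 2 : ℝ) : ℂ) := by
      rw [mul_comm, Complex.mul_conj, Complex.normSq_eq_norm_sq]
      push_cast
      ring
    rw [h3, Complex.norm_real, Real.norm_of_nonneg h1.le]
  rw [contraction, h2, Real.sqrt_mul_self h1.le, div_self h1.ne']

/-- the retractions of the domains `Du u` -/
theorem retractions_Du {n : ℕ} (u : Fin n → ℂ → ℝ) (hu : ∀ j, ConvexOn ℝ (ball 0 1) (u j))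
    (hud : ∀ j, ContDiffOn ℝ 1 (u j) (ball 0 1)) : ∃ Λ, Retractions (Du u) Λ := by
  have h3 : Du u = Dom (ball 0 1) (fun j z => u j z + -(1 / 2) * Real.log (1 - ‖z‖ ^ 2))
      {x | ∑ j, x j ^ 2 < 1} := Pool.Agent.H788R3.Cor2.Du_eq u
  choose A hA1 hA2 hA3 hA4 using fun j => conv_supp isOpen_ball (hu j) (hud j)
  -- the supports
  set B : Fin n → ℂ → ℂ → ℂ := fun j c z =>
    A j c z * (((1 - ‖c‖ ^ 2 : ℝ) : ℂ) / (1 - starRingEnd ℂ c * z)) with hB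
  have hBn : ∀ j, ∀ c ∈ ball (0 : ℂ) 1, ∀ z ∈ ball (0 : ℂ) 1, ‖B j c z‖ ≤
      contraction c z * Real.exp ((u j z + -(1 / 2) * Real.log (1 - ‖z‖ ^ 2)) -
        (u j c + -(1 / 2) * Real.log (1 - ‖c‖ ^ 2))) := by
    intro j c hc z hz
    have hc' := mem_ball_zero_iff.1 hc
    have hz' := mem_ball_zero_iff.1 hz
    have h1 : 0 < 1 - ‖c‖ ^ 2 := by nlinarith [norm_nonneg c]
    have h4 : ‖B j c z‖ = ‖A j c z‖ * ((1 - ‖c‖ ^ 2) / ‖1 - starRingEnd ℂ c * z‖) := by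
      simp only [hB]
      rw [norm_mul, norm_div, Complex.norm_real, Real.norm_of_nonneg h1.le]
    rw [h4, szego hc' hz']
    have h5 := hA3 j c hc z hz
    have h6 : 0 ≤ contraction c z := by unfold contraction; positivity
    calc ‖A j c z‖ * (contraction c z * Real.exp (-(1 / 2) * Real.log (1 - ‖z‖ ^ 2) -
          -(1 / 2) * Real.log (1 - ‖c‖ ^ 2)))
        ≤ Real.exp (u j z - u j c) * (contraction c z * Real.exp (-(1 / 2) *
          Real.log (1 - ‖z‖ ^ 2) - -(1 / 2) * Real.log (1 - ‖c‖ ^ 2))) := by gcongr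
      _ = contraction c z * Real.exp ((u j z + -(1 / 2) * Real.log (1 - ‖z‖ ^ 2)) -
        (u j c + -(1 / 2) * Real.log (1 - ‖c‖ ^ 2))) := by
          rw [mul_left_comm, ← Real.exp_add]
          congr 2
          ring
  have hcon : ∀ c ∈ ball (0 : ℂ) 1, ∀ z ∈ ball (0 : ℂ) 1, contraction c z ≤ 1 := by
    intro c hc z hz
    have hc' := mem_ball_zero_iff.1 hc
    have hz' := mem_ball_zero_iff.1 hz
    have h1 : 0 < 1 - ‖c‖ ^ 2 := by nlinarith [norm_nonneg c]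
    have h2 : 0 < 1 - ‖z‖ ^ 2 := by nlinarith [norm_nonneg z]
    unfold contraction
    rw [div_le_one (norm_pos_iff.2 (one_sub_ne hc' hz'))]
    refine Real.sqrt_le_iff.2 ⟨norm_nonneg _, ?_⟩
    have h4 : 1 - ‖c‖ * ‖z‖ ≤ ‖1 - starRingEnd ℂ c * z‖ := by
      have := norm_sub_norm_le (1 : ℂ) (starRingEnd ℂ c * z)
      rwa [norm_one, norm_mul, RCLike.norm_conj] at this
    have h5 : 0 ≤ 1 - ‖c‖ * ‖z‖ := by nlinarith [norm_nonneg c, norm_nonneg z]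
    calc (1 - ‖c‖ ^ 2) * (1 - ‖z‖ ^ 2) ≤ (1 - ‖c‖ * ‖z‖) ^ 2 := by
          nlinarith [sq_nonneg (‖c‖ - ‖z‖)]
      _ ≤ ‖1 - starRingEnd ℂ c * z‖ ^ 2 := by gcongr
  have hB1 : ∀ j, ∀ c ∈ ball (0 : ℂ) 1, DifferentiableOn ℂ (B j c) (ball 0 1) := by
    intro j c hc
    refine (hA1 j c hc).fun_mul ?_
    intro z hz
    have hne := one_sub_ne (mem_ball_zero_iff.1 hc) (mem_ball_zero_iff.1 hz)
    have e1 : DifferentiableAt ℂ (fun _ : ℂ => ((1 - ‖c‖ ^ 2 : ℝ) : ℂ)) z :=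
      differentiableAt_const _
    have e2 : DifferentiableAt ℂ (fun z : ℂ => 1 - starRingEnd ℂ c * z) z := by fun_prop
    exact (e1.fun_div e2 hne).differentiableWithinAt
  have hB2 : ∀ j, ∀ c ∈ ball (0 : ℂ) 1, B j c c = 1 := by
    intro j c hc
    have hc' := mem_ball_zero_iff.1 hc
    have h5 : 1 - starRingEnd ℂ c * c = ((1 - ‖c‖ ^ 2 : ℝ) : ℂ) := by
      rw [mul_comm, Complex.mul_conj, Complex.normSq_eq_norm_sq]
      push_cast
      ring
    have h6 := one_sub_ne hc' hc'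
    simp only [hB]
    rw [hA2 j c hc, one_mul, ← h5, div_self h6]
  have hB3 : ∀ j, ∀ c ∈ ball (0 : ℂ) 1, ∀ z ∈ ball (0 : ℂ) 1, ‖B j c z‖ ≤
      Real.exp ((u j z + -(1 / 2) * Real.log (1 - ‖z‖ ^ 2)) -
        (u j c + -(1 / 2) * Real.log (1 - ‖c‖ ^ 2))) := by
    intro j c hc z hz
    refine (hBn j c hc z hz).trans ?_
    exact mul_le_of_le_one_left (Real.exp_pos _).le (hcon c hc z hz)
  have hB4 : ∀ j, ContinuousOn (fun q : ℂ × ℂ => B j q.1 q.2) (ball 0 1 ×ˢ ball 0 1) := by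
    intro j
    refine (hA4 j).mul (ContinuousOn.div (by fun_prop) (by fun_prop) ?_)
    rintro ⟨c, z⟩ ⟨hc, hz⟩
    exact one_sub_ne (mem_ball_zero_iff.1 hc) (mem_ball_zero_iff.1 hz)
  have hcl : ∀ j, ContinuousOn (fun z : ℂ => u j z + -(1 / 2) * Real.log (1 - ‖z‖ ^ 2))
      (ball (0 : ℂ) 1) := fun j => ((hud j).add lg_diff).continuousOn
  have hRo : IsOpen {x : Fin n → ℝ | ∑ j, x j ^ 2 < 1} :=
    isOpen_lt (by fun_prop) continuous_const
  have hret := retr_dom isOpen_ball hcl hRo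
    (fun x hx y hy => by
      have hx' : ∑ j, x j ^ 2 < 1 := hx
      have hle : ∑ j, y j ^ 2 ≤ ∑ j, x j ^ 2 :=
        Finset.sum_le_sum (fun j _ => pow_le_pow_left₀ (hy j).1 (hy j).2 2)
      exact lt_of_le_of_lt hle hx') hB1 hB2 hB3 hB4
  rw [h3]
  refine ⟨LL B, hret.op, hret.sub, ?_, hret.mem, hret.self, hret.diff, hret.cont, ?_⟩
  · intro c hc
    refine ⟨hc, ?_⟩
    simp
  · intro c hc p hp t ht
    refine ⟨hc, ?_⟩
    have hp2 : ∑ j, (Real.exp (u j p.1 + -(1 / 2) * Real.log (1 - ‖p.1‖ ^ 2)) * ‖p.2 j‖) ^ 2 < 1 :=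
      hp.2
    change ∑ j, (Real.exp (u j c + -(1 / 2) * Real.log (1 - ‖c‖ ^ 2)) * ‖t * (B j c p.1 * p.2 j)‖) ^ 2
      < 1
    refine lt_of_le_of_lt (Finset.sum_le_sum (fun j _ => ?_)) hp2
    refine pow_le_pow_left₀ (by positivity) ?_ 2
    have h5 := hBn j c hc p.1 hp.1
    have h6 : 0 ≤ contraction c p.1 := by unfold contraction; positivity
    rw [norm_mul, norm_mul]
    calc Real.exp (u j c + -(1 / 2) * Real.log (1 - ‖c‖ ^ 2)) * (‖t‖ * (‖B j c p.1‖ * ‖p.2 j‖))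
        ≤ Real.exp (u j c + -(1 / 2) * Real.log (1 - ‖c‖ ^ 2)) * (‖t‖ * ((contraction c p.1 *
          Real.exp ((u j p.1 + -(1 / 2) * Real.log (1 - ‖p.1‖ ^ 2)) -
            (u j c + -(1 / 2) * Real.log (1 - ‖c‖ ^ 2)))) * ‖p.2 j‖)) := by gcongr
      _ = (‖t‖ * contraction c p.1) * ((Real.exp (u j c + -(1 / 2) * Real.log (1 - ‖c‖ ^ 2)) *
          Real.exp ((u j p.1 + -(1 / 2) * Real.log (1 - ‖p.1‖ ^ 2)) -
            (u j c + -(1 / 2) * Real.log (1 - ‖c‖ ^ 2)))) * ‖p.2 j‖) := by ring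
      _ = (‖t‖ * contraction c p.1) * (Real.exp (u j p.1 + -(1 / 2) * Real.log (1 - ‖p.1‖ ^ 2)) *
          ‖p.2 j‖) := by
          rw [← Real.exp_add]
          congr 3
          ring
      _ ≤ 1 * (Real.exp (u j p.1 + -(1 / 2) * Real.log (1 - ‖p.1‖ ^ 2)) * ‖p.2 j‖) := by gcongr
      _ = _ := one_mul _

/-- **Slice localisation** on domains over the disc with contracting retractions, and in particular
on the domains `|z|² + ∑ exp (2 u_j (z)) |y_j|² < 1` with convex `u_j`. -/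
theorem result (N : ℕ) (C : ℝ) : ∃ C' : ℝ,
    (∀ (n : ℕ) (D : Set (ℂ × (Fin n → ℂ))) (Λ : ℂ → ℂ × (Fin n → ℂ) → (Fin n → ℂ)),
      Retractions D Λ → SliceLocal N C C' D) ∧
    ∀ (n : ℕ) (u : Fin n → ℂ → ℝ), (∀ j, ConvexOn ℝ (ball 0 1) (u j)) →
      (∀ j, ContDiffOn ℝ 1 (u j) (ball 0 1)) → SliceLocal N C C' (Du u) := by
  obtain ⟨C', hC'⟩ := Pool.Agent.W732.Cor.t_disc N C
  have h1 : ∀ (n : ℕ) (D : Set (ℂ × (Fin n → ℂ))) (Λ : ℂ → ℂ × (Fin n → ℂ) → (Fin n → ℂ)),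
      Retractions D Λ → SliceLocal N C C' D := by
    intro n D Λ hR F hF hs
    refine hC' (Fin n → ℂ) D Λ ⟨⟨hR.isOpen, hR.fibred, hR.maps, hR.retraction, hR.holomorphic,
      hR.continuous⟩, hR.zero, hR.contracts⟩ F (fun i => (hF i).1) (fun i => (hF i).2)
      (fun a ha => ?_)
    obtain ⟨g, g1, g2, g3⟩ := hs a ha
    refine ⟨fun i => g (some i), g none, fun i => g1 _, g1 _, fun i => g2 _, g2 _,
      fun p hp => ?_⟩
    have h4 := g3 p hp
    rw [Fintype.sum_option] at h4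
    rw [add_comm]
    exact h4
  refine ⟨C', h1, fun n u hu hud => ?_⟩
  obtain ⟨Λ, hΛ⟩ := retractions_Du u hu hud
  exact h1 n _ Λ hΛ

end Pool.Agent.Results.MP_ca0fc2_an.SliceLocalisation
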